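import Mathlib

/-!
# Closed polygons through unit vectors surrounding the origin have length at least four

For every real normed space, every finite family of unit vectors whose convex hull contains the
origin and every cyclic ordering, the closed polygon has length at least `4`.
-/

namespace Pool.Agent.Results.MP_768819_an.CircuitAtLeastFour

open MeasureTheory Set

/-- Length of the closed polygon that visits the points `p (σ 0), p (σ 1), …` in this cyclic
order. -/
noncomputable def circuitLength {X : Type*} [NormedAddCommGroup X] {r : ℕ} (p : Fin r → X)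
    (σ : Equiv.Perm (Fin r)) : ℝ :=
  ∑ k : Fin r, ‖p (σ (finRotate r k)) - p (σ k)‖

lemma integral_step (H u : ℝ) (h0 : 0 ≤ u) (hH : u ≤ H) :
    ∫ t in Ioc (0:ℝ) H, (Iio u).indicator (fun _ => (1:ℝ)) t = u := by
  rw [setIntegral_indicator measurableSet_Iio]
  have : Ioc (0:ℝ) H ∩ Iio u = Ioo 0 u := by
    ext t
    simp only [mem_inter_iff, mem_Ioc, mem_Iio, mem_Ioo]
    constructor
    · rintro ⟨⟨h1, _⟩, h3⟩; exact ⟨h1, h3⟩
    · rintro ⟨h1, h2⟩; exact ⟨⟨h1, by linarith⟩, h2⟩
  rw [this]
  simp [h0]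

lemma integrable_step (H u : ℝ) :
    IntegrableOn (fun t => (Iio u).indicator (fun _ => (1:ℝ)) t) (Ioc (0:ℝ) H) := by
  apply Integrable.indicator _ measurableSet_Iio
  exact integrable_const _

/-- The kernel `|u - v|` on an interval of length `H`. -/
lemma kernel {ι : Type*} [Fintype ι] (H : ℝ) (hH : 0 ≤ H) (c u : ι → ℝ)
    (hu0 : ∀ i, 0 ≤ u i) (huH : ∀ i, u i ≤ H) :
    ∑ i, ∑ j, c i * c j * |u i - u j| ≤ H / 2 * (∑ i, c i) ^ 2 := by
  set E := ∑ i, c i with hE
  set ind : ℝ → ℝ → ℝ := fun v t => (Iio v).indicator (fun _ => (1:ℝ)) t with hind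
  have hmin : ∀ v w t, ind v t * ind w t = ind (min v w) t := by
    intro v w t
    simp only [hind, indicator, mem_Iio, lt_min_iff]
    by_cases h1 : t < v <;> by_cases h2 : t < w <;> simp [h1, h2]
  set g : ℝ → ℝ := fun t => ∑ i, c i * ind (u i) t with hg
  have hint1 : ∀ v, IntegrableOn (ind v) (Ioc (0:ℝ) H) := fun v => integrable_step H v
  have hg2 : ∀ t, (E / 2 - g t) ^ 2 = E ^ 2 / 4 - E * (∑ i, c i * ind (u i) t)
      + ∑ i, ∑ j, c i * c j * ind (min (u i) (u j)) t := by
    intro t
    have : g t * g t = ∑ i, ∑ j, c i * c j * ind (min (u i) (u j)) t := by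
      rw [hg]
      simp only
      rw [Finset.sum_mul_sum]
      apply Finset.sum_congr rfl
      intro i _
      apply Finset.sum_congr rfl
      intro j _
      rw [← hmin]
      ring
    rw [← this]
    simp only [hg]
    ring
  have hnn : 0 ≤ ∫ t in Ioc (0:ℝ) H, (E / 2 - g t) ^ 2 :=
    integral_nonneg (fun t => sq_nonneg _)
  simp_rw [hg2] at hnn
  have hI1 : ∫ t in Ioc (0:ℝ) H, (∑ i, c i * ind (u i) t) = ∑ i, c i * u i := by
    rw [integral_finsetSum _ (fun i _ => (hint1 (u i)).const_mul (c i))]
    apply Finset.sum_congr rfl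
    intro i _
    rw [integral_const_mul, integral_step H (u i) (hu0 i) (huH i)]
  have hI2 : ∫ t in Ioc (0:ℝ) H, (∑ i, ∑ j, c i * c j * ind (min (u i) (u j)) t)
      = ∑ i, ∑ j, c i * c j * min (u i) (u j) := by
    rw [integral_finsetSum _ (fun i _ => integrable_finsetSum _
      (fun j _ => (hint1 (min (u i) (u j))).const_mul (c i * c j)))]
    apply Finset.sum_congr rfl
    intro i _
    rw [integral_finsetSum _ (fun j _ => (hint1 (min (u i) (u j))).const_mul (c i * c j))]
    apply Finset.sum_congr rfl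
    intro j _
    rw [integral_const_mul, integral_step H (min (u i) (u j)) (le_min (hu0 i) (hu0 j))
      ((min_le_left _ _).trans (huH i))]
  have hint2 : IntegrableOn (fun t => ∑ i, c i * ind (u i) t) (Ioc (0:ℝ) H) :=
    integrable_finsetSum _ (fun i _ => (hint1 (u i)).const_mul (c i))
  have hint3 : IntegrableOn (fun t => ∑ i, ∑ j, c i * c j * ind (min (u i) (u j)) t)
      (Ioc (0:ℝ) H) :=
    integrable_finsetSum _ (fun i _ => integrable_finsetSum _
      (fun j _ => (hint1 (min (u i) (u j))).const_mul (c i * c j)))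
  have hsub : Integrable (fun t => E ^ 2 / 4 - E * ∑ i, c i * ind (u i) t)
      (volume.restrict (Ioc (0:ℝ) H)) := (integrable_const _).sub (hint2.const_mul E)
  rw [integral_add hsub hint3,
    integral_sub (integrable_const _) (hint2.const_mul E), integral_const_mul, hI1, hI2] at hnn
  have hconst : ∫ _t in Ioc (0:ℝ) H, E ^ 2 / 4 = H * (E ^ 2 / 4) := by
    simp [hH]
  rw [hconst] at hnn
  have habs : ∀ i j, c i * c j * |u i - u j|
      = c j * (c i * u i) + c i * (c j * u j) - 2 * (c i * c j * min (u i) (u j)) := by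
    intro i j
    rcases le_total (u i) (u j) with h | h
    · rw [abs_of_nonpos (by linarith), min_eq_left h]; ring
    · rw [abs_of_nonneg (by linarith), min_eq_right h]; ring
  have e1 : ∑ i, ∑ j, c i * c j * |u i - u j|
      = 2 * (E * ∑ i, c i * u i) - 2 * ∑ i, ∑ j, c i * c j * min (u i) (u j) := by
    simp_rw [habs, Finset.sum_sub_distrib, Finset.sum_add_distrib, ← Finset.mul_sum,
      ← Finset.sum_mul]
    rw [← hE, ← Finset.mul_sum]
    ring
  rw [e1]
  linarith

/-- The sequence version. -/
lemma main_seq {X : Type*} [NormedAddCommGroup X] [NormedSpace ℝ X] (r : ℕ) (q : ℕ → X)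
    (hper : ∀ k, q (k + r) = q k) (μ : Fin r → ℝ) (hμ : ∀ k, 0 ≤ μ k) (hμ1 : ∑ k, μ k = 1)
    (hunit : ∀ k, ‖q k‖ = 1) (hzero : ∑ k : Fin r, μ k • q k = 0) :
    4 ≤ ∑ k ∈ Finset.range r, ‖q (k + 1) - q k‖ := by
  set s : ℕ → ℝ := fun k => ∑ j ∈ Finset.range k, ‖q (j + 1) - q j‖ with hs
  set L : ℝ := ∑ k ∈ Finset.range r, ‖q (k + 1) - q k‖ with hL
  set H : ℝ := L / 2 with hH
  have hL0 : 0 ≤ L := Finset.sum_nonneg (fun _ _ => norm_nonneg _)
  have hsr : s r = L := rfl
  have hmono : Monotone s := by
    apply monotone_nat_of_le_succ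
    intro n
    simp only [hs]
    rw [Finset.sum_range_succ]
    linarith [norm_nonneg (q (n + 1) - q n)]
  have hs0 : ∀ k, 0 ≤ s k := fun k => Finset.sum_nonneg (fun _ _ => norm_nonneg _)
  have hdist : ∀ j k, j ≤ k → ‖q k - q j‖ ≤ s k - s j := by
    intro j k hjk
    induction k, hjk using Nat.le_induction with
    | base => simp
    | succ n hn ih =>
      have h1 : q (n + 1) - q j = (q (n + 1) - q n) + (q n - q j) := by abel
      have h2 : s (n + 1) = s n + ‖q (n + 1) - q n‖ := by
        simp only [hs]; rw [Finset.sum_range_succ]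
      rw [h1, h2]
      linarith [norm_add_le (q (n + 1) - q n) (q n - q j)]
  have hsper : ∀ j, s (j + r) = s j + L := by
    intro j
    induction j with
    | zero => simp only [zero_add]; rw [hsr]; simp [hs]
    | succ n ih =>
      have h2 : s (n + 1) = s n + ‖q (n + 1) - q n‖ := by
        simp only [hs]; rw [Finset.sum_range_succ]
      have h3 : s (n + 1 + r) = s (n + r) + ‖q (n + r + 1) - q (n + r)‖ := by
        rw [show n + 1 + r = (n + r) + 1 by ring]
        simp only [hs]; rw [Finset.sum_range_succ]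
      rw [h2, h3, ih, hper n, show n + r + 1 = (n + 1) + r by ring, hper (n + 1)]
      ring
  have hdist2 : ∀ j k, j ≤ k → k ≤ r → ‖q k - q j‖ ≤ L - (s k - s j) := by
    intro j k _ hkr
    have h1 := hdist k (j + r) (by omega)
    rw [hper, hsper, norm_sub_rev] at h1
    linarith
  -- coordinates on the circle
  set ε : Fin r → ℝ := fun k => if s k < H then 1 else -1 with hε
  set u : Fin r → ℝ := fun k => if s k < H then s k else s k - H with hu
  have hsL : ∀ k : Fin r, s k ≤ L := by
    intro k
    have := hmono (le_of_lt k.2)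
    rwa [hsr] at this
  have hu0 : ∀ k, 0 ≤ u k := by
    intro k
    simp only [hu]
    split_ifs with h
    · exact hs0 _
    · linarith
  have huH : ∀ k, u k ≤ H := by
    intro k
    simp only [hu]
    split_ifs with h
    · exact h.le
    · have := hsL k
      linarith
  have hkey : ∀ k l : Fin r, ‖q k - q l‖ ≤ H * (1 - ε k * ε l) / 2 + ε k * ε l * |u k - u l| := by
    have hk : ∀ k l : Fin r, (l : ℕ) ≤ k →
        ‖q k - q l‖ ≤ H * (1 - ε k * ε l) / 2 + ε k * ε l * |u k - u l| := by
      intro k l hlk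
      have h1 := hdist l k hlk
      have h2 := hdist2 l k hlk (le_of_lt k.2)
      have h3 : s l ≤ s k := hmono hlk
      simp only [hε, hu]
      by_cases hk : s k < H
      · have hl : s l < H := by linarith
        rw [if_pos hk, if_pos hl, if_pos hk, if_pos hl, abs_of_nonneg (by linarith)]
        linarith
      · by_cases hl : s l < H
        · rw [if_neg hk, if_pos hl, if_neg hk, if_pos hl]
          rcases le_total 0 (s k - H - s l) with h | h
          · rw [abs_of_nonneg h]; linarith
          · rw [abs_of_nonpos h]; linarith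
        · rw [if_neg hk, if_neg hl, if_neg hk, if_neg hl]
          rw [abs_of_nonneg (by linarith)]
          linarith
    intro k l
    rcases le_total (l : ℕ) (k : ℕ) with h | h
    · exact hk k l h
    · have := hk l k h
      rw [norm_sub_rev, abs_sub_comm, mul_comm (ε k) (ε l)]
      exact this
  -- each point
  have hone : ∀ k : Fin r, 1 ≤ ∑ l, μ l * ‖q k - q l‖ := by
    intro k
    have h1 : ∑ l : Fin r, μ l • (q k - q l) = q k := by
      simp_rw [smul_sub, Finset.sum_sub_distrib, ← Finset.sum_smul]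
      rw [hμ1, hzero, one_smul, sub_zero]
    calc (1:ℝ) = ‖q k‖ := (hunit k).symm
      _ = ‖∑ l : Fin r, μ l • (q k - q l)‖ := by rw [h1]
      _ ≤ ∑ l, ‖μ l • (q k - q l)‖ := norm_sum_le _ _
      _ = ∑ l, μ l * ‖q k - q l‖ := by
        apply Finset.sum_congr rfl
        intro l _
        rw [norm_smul, Real.norm_of_nonneg (hμ l)]
  have hsum1 : 1 ≤ ∑ k, μ k * ∑ l, μ l * ‖q k - q l‖ := by
    calc (1:ℝ) = ∑ k, μ k * 1 := by simp [hμ1]
      _ ≤ _ := Finset.sum_le_sum (fun k _ => mul_le_mul_of_nonneg_left (hone k) (hμ k))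
  have hsum2 : ∑ k, μ k * ∑ l, μ l * ‖q k - q l‖
      ≤ ∑ k, μ k * ∑ l, μ l * (H * (1 - ε k * ε l) / 2 + ε k * ε l * |u k - u l|) := by
    apply Finset.sum_le_sum
    intro k _
    apply mul_le_mul_of_nonneg_left _ (hμ k)
    apply Finset.sum_le_sum
    intro l _
    exact mul_le_mul_of_nonneg_left (hkey k l) (hμ l)
  have hker := kernel H (by linarith) (fun k => μ k * ε k) u hu0 huH
  have hexp : ∑ k, μ k * ∑ l, μ l * (H * (1 - ε k * ε l) / 2 + ε k * ε l * |u k - u l|)
      = H / 2 - H / 2 * (∑ k, μ k * ε k) ^ 2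
        + ∑ k, ∑ l, (μ k * ε k) * (μ l * ε l) * |u k - u l| := by
    have e1 : ∀ k l, μ k * (μ l * (H * (1 - ε k * ε l) / 2 + ε k * ε l * |u k - u l|))
        = H / 2 * (μ k * μ l) - H / 2 * ((μ k * ε k) * (μ l * ε l))
          + (μ k * ε k) * (μ l * ε l) * |u k - u l| := by
      intro k l; ring
    simp_rw [Finset.mul_sum, e1, Finset.sum_add_distrib, Finset.sum_sub_distrib,
      ← Finset.mul_sum]
    rw [← Finset.sum_mul, ← Finset.sum_mul, hμ1]
    ring
  rw [hexp] at hsum2
  linarith

/-- **Every closed polygon through finitely many unit vectors whose convex hull contains the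
origin has length at least four, in every real normed space.** -/
theorem result (X : Type*) [NormedAddCommGroup X] [NormedSpace ℝ X] (r : ℕ) (p : Fin r → X)
    (hp : ∀ i, ‖p i‖ = 1) (h0 : (0 : X) ∈ convexHull ℝ (Set.range p))
    (σ : Equiv.Perm (Fin r)) : 4 ≤ circuitLength p σ := by
  classical
  rcases Nat.eq_zero_or_pos r with hr | hr
  · subst hr
    simp at h0
  -- weights
  rw [convexHull_range_eq_exists_affineCombination] at h0
  obtain ⟨t, w, hw0, hw1, hwz⟩ := h0
  rw [Finset.affineCombination_eq_linear_combination _ _ _ hw1] at hwz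
  set lam : Fin r → ℝ := fun i => if i ∈ t then w i else 0 with hlam
  have hlam0 : ∀ i, 0 ≤ lam i := by
    intro i
    simp only [hlam]
    split_ifs with h
    · exact hw0 i h
    · exact le_rfl
  have hlam1 : ∑ i, lam i = 1 := by
    simp only [hlam]
    rw [← hw1]
    simp
  have hlamz : ∑ i, lam i • p i = 0 := by
    rw [← hwz]
    simp only [hlam, ite_smul, zero_smul]
    simp
  set q : ℕ → X := fun k => p (σ ⟨k % r, Nat.mod_lt k hr⟩) with hq
  have hqk : ∀ k : Fin r, q k = p (σ k) := by
    intro k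
    simp only [hq]
    congr 2
    apply Fin.ext
    exact Nat.mod_eq_of_lt k.2
  have hrot : ∀ k : Fin r, q ((k : ℕ) + 1) = p (σ (finRotate r k)) := by
    intro k
    simp only [hq]
    congr 2
    apply Fin.ext
    obtain ⟨n, rfl⟩ : ∃ n, r = n + 1 := ⟨r - 1, by omega⟩
    rw [finRotate_apply]
    simp [Fin.val_add]
  have hmain := main_seq r q (by intro k; simp [hq]) (fun k => lam (σ k))
    (fun k => hlam0 _) (by rw [← hlam1]; exact Equiv.sum_comp σ lam)
    (fun k => hp _) (by
      rw [← hlamz, ← Equiv.sum_comp σ (fun i => lam i • p i)]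
      apply Finset.sum_congr rfl
      intro k _
      rw [hqk])
  rw [Finset.sum_range] at hmain
  unfold circuitLength
  calc (4:ℝ) ≤ _ := hmain
    _ = _ := by
      apply Finset.sum_congr rfl
      intro k _
      rw [hrot, hqk]

end Pool.Agent.Results.MP_768819_an.CircuitAtLeastFour
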